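import Pool.Agent.Lib.MP_8c874d_gt.Zfc.Fin

set_option autoImplicit false

/-!
The answer to Q1 is no, without additional axioms.

Idea of the proof.  Let `A` be a stationary set of countable ordinals whose complement is
stationary.  The vertices of a graph are built by recursion: a vertex `v` has a level in `A`, a
fibre in `ω`, a countable set `dn v` of lower neighbours of smaller level, a set `c v ⊆ A` of
ordinals which is closed and contains the levels of its lower neighbours, and a label, a set of
subsets of `dn v`.  Cliques are countable, since otherwise the complement of `A` would not be
stationary.  So the cliques form a compact space (a closed subspace of a power of the two point
space whose members have countable support), and it satisfies (H).  The labels guess open sets: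
the subspace `Y` consists of the cliques `y` such that for each `k` some `a ∈ y` of fibre `k` has
`y ∩ dn a` in its label.  A test is a list of countably many tasks for each finite set of vertices,
and a vertex is generic for a test if its lower neighbours fulfil all of its tasks.  An open set is
null if it contains no finite clique of generic vertices, for some test.  By a fusion argument at
closed points of `A` there are members of `Y` all of whose vertices are generic for a given test.
The closed subsets of `Y` whose complement is covered by a null open set form a maximal centered
family of closed sets with the countable intersection property and empty intersection.
-/

namespace Pool.Agent.Results.MP_8c874d_gt.Q1Refuted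

open Pool.Agent.Lib.MP_8c874d_gt

/-- There is a compact space satisfying (H) which has a subspace that is not alpha-realcompact. -/
theorem result : ∃ (X : Type) (_ : TopologicalSpace X), CompactSpace X ∧ T2Space X ∧
    ConditionH X ∧ ¬ HereditarilyAlphaRealcompact X :=
  Zfc.main_zfc

end Pool.Agent.Results.MP_8c874d_gt.Q1Refuted
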