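import Pool.Agent.Lib.MP_8c874d_gt.Zfc.Fin
import Pool.Agent.Lib.MP_8c874d_gt.Radon

set_option autoImplicit false

/-!
The answer to Q2 is no: without additional axioms there is a compact space satisfying (H) which
is not Radon.  It is the space of the cliques of a graph whose vertices have levels in a
stationary set of countable ordinals with stationary complement; see the file on Q1.
-/

namespace Pool.Agent.Results.MP_8c874d_gt.Q2Refuted

open Pool.Agent.Lib.MP_8c874d_gt

/-- There is a compact space satisfying (H) which is not Radon. -/
theorem result : ∃ (X : Type) (_ : TopologicalSpace X), CompactSpace X ∧ T2Space X ∧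
    ConditionH X ∧ ¬ IsRadonSpace X := by
  obtain ⟨X, hX, hc, h2, hH, hn⟩ := Zfc.main_zfc
  exact ⟨X, hX, hc, h2, hH, fun hR => hn (Q2.specRA X hR)⟩

end Pool.Agent.Results.MP_8c874d_gt.Q2Refuted
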